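import Pool.Agent.TH650.Emb.HX
import Pool.Agent.TH650.Emb.HS
import Pool.Agent.TH650.Emb.NoEmb
import Pool.Agent.TH650.Emb.Smooth
import Pool.Agent.TH650.Emb.Bridge

/-!
# MP_8e71ea_gt, Q1: yes

`Y3` is the quotient of `{(s, x) ∈ Circle × ℂ : ‖x‖ < 3/2}` minus the Smale solenoid of
`σ(s, x) = (s², x/4 + s/2)` by the equivalence relation generated by `p ~ σ(p)`, and `X4` is the
quotient of the analogous open set of `Circle × (ℂ × ℝ)`. The 4-manifold `X4` is an integer homology
`S¹ × S³` and `Y3 ⊆ X4` is `H_1`-surjective; no injective continuous map `Y3 → S¹ × S³` is onto on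
`H_1`.
-/

set_option autoImplicit false

open scoped Manifold ContDiff Topology EuclideanSpace
open Set CategoryTheory

namespace Pool.Agent.Results.MP_8e71ea_gt.SolenoidQuotient

open Pool.Agent.TH650.Emb

/-- `M` (with its distinguished atlas) is a closed connected oriented smooth `m`-manifold: Hausdorff,
second countable, compact, connected, with smooth coordinate changes whose Jacobian determinants
are positive. -/
def ClosedOriented (m : ℕ) (M : Type) [TopologicalSpace M]
    [ChartedSpace (EuclideanSpace ℝ (Fin m)) M] : Prop :=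
  T2Space M ∧ SecondCountableTopology M ∧ CompactSpace M ∧ ConnectedSpace M ∧
    IsManifold (𝓡 m) ∞ M ∧ Oriented m M

/-- `f` is onto on `H_1(·; ℤ)` -/
def OntoH1 {Y X : Type} [TopologicalSpace Y] [TopologicalSpace X] (f : C(Y, X)) : Prop :=
  Function.Surjective (HZmap 1 f).hom

/-- `Y` has an `H_1`-surjective smooth embedding into some integer homology `S¹ × S³`, that is, into
a closed connected oriented smooth 4-manifold `X` with `H_k(X; ℤ) ≅ H_k(S¹ × S³; ℤ)` for
all `k`. -/
def EmbedsInHomologyS1S3 (Y : Type) [TopologicalSpace Y]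
    [ChartedSpace (EuclideanSpace ℝ (Fin 3)) Y] : Prop :=
  ∃ (X : Type) (_ : TopologicalSpace X) (_ : ChartedSpace (EuclideanSpace ℝ (Fin 4)) X),
    ClosedOriented 4 X ∧ (∀ k : ℕ, Nonempty (HZ k X ≅ HZ k (Circle × S3))) ∧
      ∃ f : C(Y, X), Manifold.IsSmoothEmbedding (𝓡 3) (𝓡 4) ∞ f ∧ OntoH1 f

/-- `Y` has an `H_1`-surjective smooth embedding into `S¹ × S³` -/
def EmbedsInS1S3 (Y : Type) [TopologicalSpace Y]
    [ChartedSpace (EuclideanSpace ℝ (Fin 3)) Y] : Prop :=
  ∃ f : C(Y, Circle × S3), Manifold.IsSmoothEmbedding (𝓡 3) ((𝓡 1).prod (𝓡 3)) ∞ f ∧ OntoH1 f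

theorem secondCountable {m : ℕ} (M : Type) [TopologicalSpace M] [CompactSpace M]
    [ChartedSpace (EuclideanSpace ℝ (Fin m)) M] : SecondCountableTopology M :=
  ChartedSpace.secondCountable_of_sigmaCompact (EuclideanSpace ℝ (Fin m)) M

/-- the homology of `X4` is that of `Circle × S3` -/
theorem homology_iso (k : ℕ) : Nonempty (HZ k X4 ≅ HZ k (Circle × S3)) := by
  obtain ⟨a1, a2, a3, a4, a5⟩ := hom_X4
  obtain ⟨b1, b2, b3, b4, b5⟩ := hom_S1S3
  have hz : ∀ {n : ℕ}, 1 ≤ n → HasZ X4 n → HasZ (Circle × S3) n →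
      Nonempty (HZ n X4 ≅ HZ n (Circle × S3)) := by
    intro n hn h h'
    obtain ⟨e⟩ := bridge_Z X4 n hn h
    obtain ⟨e'⟩ := bridge_Z (Circle × S3) n hn h'
    exact ⟨e ≪≫ e'.symm⟩
  have hac : ∀ {n : ℕ}, 1 ≤ n → Pool.Agent.H904R2.RAcyc X4 n →
      Pool.Agent.H904R2.RAcyc (Circle × S3) n → Nonempty (HZ n X4 ≅ HZ n (Circle × S3)) := by
    intro n hn h h'
    exact ⟨(bridge_acyc X4 n hn h).iso (bridge_acyc (Circle × S3) n hn h')⟩
  match k with
  | 0 =>
    obtain ⟨e⟩ := bridge_zero X4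
    obtain ⟨e'⟩ := bridge_zero (Circle × S3)
    exact ⟨e ≪≫ e'.symm⟩
  | 1 => exact hz le_rfl a1 b1
  | 2 => exact hac (by norm_num) a2 b2
  | 3 => exact hz (by norm_num) a3 b3
  | 4 => exact hz (by norm_num) a4 b4
  | k + 5 => exact hac (by omega) (a5 (k + 5) (by omega)) (b5 (k + 5) (by omega))

/-- no injective map of `Y3` to `Circle × S3` is onto on `H_1` -/
theorem no_emb (f : C(Y3, Circle × S3)) (hf : Function.Injective f) : ¬ OntoH1 f := by
  intro hs
  exact Pool.Agent.TH650.AS.no_embedding f hf (onto_comp onto_fst ((bridge_onto f).1 hs))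

/-- Q1 of MP_8e71ea_gt has the answer yes: some closed oriented 3-manifold `Y` has an
`H_1`-surjective smooth embedding into an integer homology `S¹ × S³` but none into `S¹ × S³`; in
fact no injective continuous map `Y → S¹ × S³` is onto on `H_1`. -/
theorem result :
    ∃ (Y : Type) (_ : TopologicalSpace Y) (_ : ChartedSpace (EuclideanSpace ℝ (Fin 3)) Y),
      ClosedOriented 3 Y ∧ EmbedsInHomologyS1S3 Y ∧ ¬ EmbedsInS1S3 Y ∧
        ∀ f : C(Y, Circle × S3), Function.Injective f → ¬ OntoH1 f := by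
  obtain ⟨c3, c4, m3, m4, o3, o4, he⟩ := smooth_structures
  refine ⟨Y3, inferInstance, c3,
    ⟨inferInstance, secondCountable (m := 3) Y3, inferInstance, inferInstance, m3, o3⟩,
    ⟨X4, inferInstance, c4,
      ⟨inferInstance, secondCountable (m := 4) X4, inferInstance, inferInstance, m4, o4⟩,
      homology_iso, emb, he, (bridge_onto emb).2 onto_emb⟩, ?_, no_emb⟩
  rintro ⟨f, hf, hs⟩
  exact no_emb f hf.isEmbedding.injective hs

end Pool.Agent.Results.MP_8e71ea_gt.SolenoidQuotient
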